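import Pool.Agent.Q62.AG.Main

open scoped ContDiff

namespace Pool.Agent.Results.MP_6822f0_an.BoundaryMinimum

open Pool.Agent.Q62.AG

/-- Q1 is false on every bounded domain of every dimension `n ≥ 3`, for every weight `b`: for every
`M` there are smooth positive coefficients `a, c` such that all minimum points of
`f = a^(n/2)/c^((n-2)/2)` are non-stationary boundary points and `lam_{0,*} ≤ -M`.
Moreover every positive smooth `F` is the function `f` of coefficients with `lam_{0,*} ≤ -M`. -/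
theorem result (n : ℕ) (hn : 3 ≤ n) (Θ : Set (E n)) (ho : IsOpen Θ)
    (hbd : Bornology.IsBounded Θ) (hne : Θ.Nonempty) (b : E n → ℝ) (hbc : Continuous b)
    (hbp : ∀ x, 0 < b x) (M : ℝ) :
    (∃ a c : E n → ℝ, SmoothPos a ∧ SmoothPos c ∧ NonstationaryBoundaryMin Θ (fac a c) ∧
      lamStar Θ a b c ≤ ((-M : ℝ) : EReal)) ∧
    ∀ F : E n → ℝ, SmoothPos F → ∃ a c : E n → ℝ, SmoothPos a ∧ SmoothPos c ∧ fac a c = F ∧
      lamStar Θ a b c ≤ ((-M : ℝ) : EReal) := by
  refine ⟨?_, ?_⟩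
  · obtain ⟨F, hF, hFp, hmin⟩ := exists_nonstationary n hn Θ ho
    obtain ⟨a, c, h1, h2, h3, h4, h5, h6⟩ := exists_coeff n hn Θ ho hbd hne b hbc hbp M F hF hFp
    refine ⟨a, c, ⟨h1, h3⟩, ⟨h2, h4⟩, ?_, h6⟩
    have : fac a c = F := funext h5
    rw [this]
    exact hmin
  · intro F hF
    obtain ⟨a, c, h1, h2, h3, h4, h5, h6⟩ :=
      exists_coeff n hn Θ ho hbd hne b hbc hbp M F hF.1 hF.2
    exact ⟨a, c, ⟨h1, h3⟩, ⟨h2, h4⟩, funext h5, h6⟩

end Pool.Agent.Results.MP_6822f0_an.BoundaryMinimum
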